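import Pool.Agent.D0H2.L9.Det
import Pool.Agent.D0H69.L0.StmC

/-!
# Project L0, module P1: the combinatorial statement

With `P T = det (X q + Laplacian of T)`, `d T`, `φ T` the coefficients of `X`, `X ^ 2`, the solution of the
recursion is `b T = D a y T + (q(T) - 1) φ T`.
-/

set_option autoImplicit false

namespace Pool.Agent.D0H2.L0

open Finset Polynomial Pool.Agent.D0H2.L9
open Pool.Agent.Y715.T.Comb (D D_rec D_one)

variable {J : Type} [DecidableEq J] [Fintype J]

section ring

variable {R R' : Type} [CommRing R] [CommRing R']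

lemma E_map (f : R →+* R') (y : Option J) : (fun x => f (E y x)) = E y := by
  funext x
  by_cases h : x = y
  · subst h; simp [E]
  · simp [E, h]

lemma Z_map (f : R →+* R') (a : J → J → R) (u t : J → R) (T : Finset J) (r : Option J → R) :
    Z (fun i j => f (a i j)) (fun i => f (u i)) (fun i => f (t i)) T (fun x => f (r x)) =
      f (Z a u t T r) := by
  unfold Z
  rw [RingHom.map_det]
  congr 1
  ext x y
  rcases x with _ | k
  · simp [B]
  · rcases y with _ | l
    · by_cases hk : k ∈ T <;> simp [B, hk]
    · by_cases hk : k ∈ T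
      · by_cases hl : k = l
        · subst hl
          simp [B, hk, map_sum]
        · simp [B, hk, hl]
      · by_cases hl : l = k
        · simp [B, hk, hl]
        · simp [B, hk, hl]

lemma Z_scale (a : J → J → R) (x : R) (u t : J → R) (T : Finset J) (j : J) :
    Z a (fun k => x * u k) t T (E (some j)) = x * Z a u t T (E (some j)) := by
  have h := Matrix.det_mul_row (fun y : Option J => match y with | none => x | some _ => 1)
    (B a u t T (E (some j)))
  rw [Fintype.prod_option] at h
  simp only [prod_const_one, mul_one] at h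
  unfold Z
  rw [← h]
  congr 1
  ext p s
  rcases p with _ | k
  · rcases s with _ | l
    · simp [B, E]
    · simp [B, E]
  · rcases s with _ | l
    · by_cases hk : k ∈ T <;> simp [B, hk]
    · by_cases hk : k ∈ T <;> simp [B, hk]

/-- all rows with the weights `e` instead of the row `r` -/
lemma Z_row (a : J → J → R) (u t e : J → R) (r : J) (hs : ∀ l m, l ≠ m → e l * a l m = e m * a m l)
    (hu : ∑ k, e k * u k = 0) :
    e r * Z a u t univ (E (some r)) = -Z a u (fun k => t k + a k r) (univ.erase r)
      (fun x => match x with | none => 0 | some l => e l * t l) := by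
  set A := B a u t univ (E (some r)) with hA
  have h1 := Matrix.det_updateRow_sum A (some r)
    (fun x => match x with | none => 0 | some k => e k)
  simp only [smul_eq_mul] at h1
  unfold Z
  rw [← hA, ← h1]
  have hne : (none : Option J) ≠ some r := by simp
  set ρ : Option J → R := fun x => match x with | none => 0 | some l => e l * t l with hρ
  have h2 : ∑ k : Option J, (match k with | none => 0 | some k => e k : R) • A k = ρ := by
    funext y
    rw [Finset.sum_apply, Fintype.sum_option]
    simp only [zero_smul, Pi.zero_apply, zero_add, Pi.smul_apply, smul_eq_mul]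
    rcases y with _ | l
    · simp only [hA, B, mem_univ, if_true, hρ, mul_neg, sum_neg_distrib]
      rw [hu, neg_zero]
      simp
    · simp only [hA, B, mem_univ, if_true, hρ, mul_ite]
      rw [← add_sum_erase univ _ (mem_univ l), if_pos rfl]
      have e1 : ∑ k ∈ univ.erase l, (if k = l then e k * (t k + ∑ m ∈ univ.erase k, a k m) else
          e k * -a k l) = ∑ k ∈ univ.erase l, -(e l * a l k) := by
        refine sum_congr rfl fun k hk => ?_
        rw [if_neg (ne_of_mem_erase hk), hs l k (ne_of_mem_erase hk).symm]
        ring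
      rw [e1, sum_neg_distrib, mul_add, mul_sum]
      ring
  rw [h2]
  have h3 := Matrix.det_permute (Equiv.swap (none : Option J) (some r)) (A.updateRow (some r) ρ)
  rw [Equiv.Perm.sign_swap hne] at h3
  have h4 : (A.updateRow (some r) ρ).submatrix (Equiv.swap (none : Option J) (some r)) id =
      B a u (fun k => t k + a k r) (univ.erase r) ρ := by
    ext p s
    rcases p with _ | p
    · simp [B]
    · by_cases hp : p = r
      · subst hp
        simp [B, hA, E, Matrix.updateRow_apply]
      · have h5 : (Equiv.swap (none : Option J) (some r)) (some p) = some p :=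
          Equiv.swap_apply_of_ne_of_ne (by simp) (by simpa using hp)
        simp only [Matrix.submatrix_apply, id, h5]
        rw [Matrix.updateRow_ne (by simpa using hp)]
        rcases s with _ | l
        · simp [hA, B, hp]
        · by_cases hl : p = l
          · subst hl
            have h6 : univ.erase p = insert r ((univ.erase r).erase p) := by
              ext x
              simp only [mem_erase, mem_univ, and_true, mem_insert]
              constructor
              · intro hx
                by_cases hxr : x = r
                · exact Or.inl hxr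
                · exact Or.inr ⟨hx, hxr⟩
              · rintro (rfl | ⟨hx, -⟩)
                · exact fun h => hp h.symm
                · exact hx
            have h7 : r ∉ (univ.erase r).erase p := by simp
            simp only [hA, B, mem_univ, if_true, mem_erase, ne_eq, hp, not_false_eq_true, and_self]
            rw [h6, sum_insert h7]
            ring
          · simp [hA, B, hp, hl]
  rw [h4] at h3
  simp only [Units.val_neg, Units.val_one, Int.cast_neg, Int.cast_one, neg_mul, one_mul] at h3
  rw [h3, neg_neg]

end ring

section poly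

variable (a : J → J → ZMod 3) (q : J → ZMod 3)

instance : Fact (Nat.Prime 3) := ⟨Nat.prime_three⟩

/-- the weights as polynomials -/
noncomputable def aC : J → J → (ZMod 3)[X] := fun i l => C (a i l)

/-- the constants `q` -/
noncomputable def qC : J → (ZMod 3)[X] := fun k => C (q k)

/-- the multiples of the variable -/
noncomputable def tX : J → (ZMod 3)[X] := fun k => X * C (q k)

/-- the determinant -/
noncomputable def P (T : Finset J) : (ZMod 3)[X] := Z (aC a) (tX q) (tX q) T (E none)

/-- the determinant divided by the variable -/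
noncomputable def p (T : Finset J) : (ZMod 3)[X] := (P a q T).divX

/-- the minor -/
noncomputable def Qj (T : Finset J) (j : J) : (ZMod 3)[X] := Z (aC a) (qC q) (tX q) T (E (some j))

lemma Q_eq {T : Finset J} {j : J} (hj : j ∈ T) : X * Qj a q T j = P a q T := by
  unfold Qj P
  rw [← Z_scale]
  exact Z_self (aC a) (tX q) hj

lemma Q_p {T : Finset J} {j : J} (hj : j ∈ T) : Qj a q T j = p a q T := by
  have h := Q_eq a q hj
  have h1 := divX_mul_X_add (P a q T)
  have h2 : (P a q T).coeff 0 = 0 := by rw [← h, mul_coeff_zero, coeff_X_zero, zero_mul]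
  rw [h2, C_0, add_zero] at h1
  unfold p
  apply mul_left_cancel₀ (X_ne_zero (R := ZMod 3))
  rw [h, mul_comm]
  exact h1.symm

lemma P_p {T : Finset J} (hT : T.Nonempty) : P a q T = X * p a q T := by
  obtain ⟨j, hj⟩ := hT
  rw [← Q_p a q hj, Q_eq a q hj]

/-- the products -/
noncomputable def W (T U : Finset J) : (ZMod 3)[X] := ∏ k ∈ U, (tX q k + ∑ l ∈ T, aC a k l)

omit [Fintype J] in
lemma W_coeff (T U : Finset J) : (W a q T U).coeff 0 = ∏ k ∈ U, ∑ l ∈ T, a k l ∧
    (W a q T U).coeff 1 = ∑ k ∈ U, q k * ∏ i ∈ U.erase k, ∑ l ∈ T, a i l := by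
  unfold W
  induction U using Finset.induction_on with
  | empty => simp [coeff_one]
  | insert k U hk ih =>
    have e : ∑ l ∈ T, aC a k l = C (∑ l ∈ T, a k l) := (map_sum C (fun l => a k l) T).symm
    have e0 : (tX q k + ∑ l ∈ T, aC a k l).coeff 0 = ∑ l ∈ T, a k l := by
      rw [e, coeff_add, coeff_C_zero]
      simp [tX]
    have e1 : (tX q k + ∑ l ∈ T, aC a k l).coeff 1 = q k := by
      rw [e, coeff_add, coeff_C_succ, add_zero]
      simp [tX]
    rw [prod_insert hk, mul_coeff_zero, mul_coeff_one, ih.1, ih.2, e0, e1, prod_insert hk,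
      sum_insert hk, erase_insert hk]
    refine ⟨rfl, ?_⟩
    rw [add_comm]
    congr 1
    rw [mul_sum]
    refine sum_congr rfl fun i hi => ?_
    have hik : i ≠ k := fun h => hk (h ▸ hi)
    rw [erase_insert_of_ne hik.symm, prod_insert (fun h => hk (mem_of_mem_erase h))]
    ring

lemma P_empty : P a q ∅ = 1 := by
  have h := G_empty (aC a) (tX q) (tX q)
  unfold G at h
  rw [powerset_empty, sum_singleton] at h
  simpa [P] using h

/-- the identity of polynomials -/
lemma poly_rec {S : Finset J} (hS : S.Nonempty) :
    ∑ T ∈ S.powerset.filter (fun T => T.Nonempty), (-1) ^ T.card * (p a q T * W a q T (S \ T)) =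
      -(X ^ (S.card - 1) * C (∏ k ∈ S, q k)) := by
  have h := (G_main (aC a) S.card S rfl (tX q) (tX q)).1
  rw [if_neg hS.ne_empty] at h
  have h1 : G (aC a) (tX q) (tX q) S (E none) =
      ∑ T ∈ S.powerset, (-1) ^ T.card * (P a q T * W a q T (S \ T)) := rfl
  rw [h1, ← sum_filter_add_sum_filter_not _ (fun T => T.Nonempty)] at h
  have h2 : S.powerset.filter (fun T => ¬ T.Nonempty) = {∅} := by
    ext T
    simp only [mem_filter, mem_powerset, not_nonempty_iff_eq_empty, mem_singleton]
    constructor
    · exact fun h => h.2
    · rintro rfl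
      exact ⟨empty_subset _, rfl⟩
  have h3 : W a q ∅ (S \ ∅) = X * (X ^ (S.card - 1) * C (∏ k ∈ S, q k)) := by
    unfold W
    rw [sdiff_empty]
    simp only [sum_empty, add_zero, tX]
    rw [prod_mul_distrib, prod_const, ← map_prod, ← mul_assoc, ← pow_succ']
    congr 2
    have := card_pos.2 hS
    omega
  rw [h2, sum_singleton, P_empty, h3] at h
  have h4 : ∑ T ∈ S.powerset.filter (fun T => T.Nonempty),
      (-1 : (ZMod 3)[X]) ^ T.card * (P a q T * W a q T (S \ T)) =
      X * ∑ T ∈ S.powerset.filter (fun T => T.Nonempty),
        (-1) ^ T.card * (p a q T * W a q T (S \ T)) := by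
    rw [mul_sum]
    refine sum_congr rfl fun T hT => ?_
    rw [P_p a q (mem_filter.1 hT).2]
    ring
  rw [h4] at h
  apply mul_left_cancel₀ (X_ne_zero (R := ZMod 3))
  simp only [card_empty, pow_zero, one_mul] at h
  linear_combination h

/-- first coefficient -/
noncomputable def d (T : Finset J) : ZMod 3 := (p a q T).coeff 0

/-- second coefficient -/
noncomputable def f2 (T : Finset J) : ZMod 3 := (p a q T).coeff 1

/-- the product of the linear forms -/
def mm (T U : Finset J) : ZMod 3 := ∏ k ∈ U, ∑ l ∈ T, a k l

/-- the products with one factor replaced by `q` -/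
def nn (T U : Finset J) : ZMod 3 := ∑ k ∈ U, q k * ∏ i ∈ U.erase k, ∑ l ∈ T, a i l

omit [Fintype J] [DecidableEq J] in
lemma coeff_sgn (n k : ℕ) (f : (ZMod 3)[X]) : ((-1) ^ n * f).coeff k = (-1) ^ n * f.coeff k := by
  have : ((-1 : (ZMod 3)[X]) ^ n) = C ((-1) ^ n) := by simp
  rw [this, coeff_C_mul]

lemma rec0 {S : Finset J} (hS : S.Nonempty) :
    ∑ T ∈ S.powerset.filter (fun T => T.Nonempty), (-1) ^ T.card * (d a q T * mm a T (S \ T)) =
      -(if S.card = 1 then ∏ k ∈ S, q k else 0) := by
  have h := congrArg (fun f => coeff f 0) (poly_rec a q hS)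
  simp only [finsetSum_coeff, coeff_sgn, coeff_neg] at h
  simp only [mul_coeff_zero, coeff_C_zero, coeff_X_pow] at h
  simp only [(W_coeff a q _ _).1] at h
  unfold d mm
  rw [h]
  have := card_pos.2 hS
  by_cases h1 : S.card = 1
  · rw [if_pos h1, if_pos (by omega), one_mul]
  · rw [if_neg h1, if_neg (by omega), zero_mul]

lemma rec1 {S : Finset J} (hS : S.Nonempty) :
    ∑ T ∈ S.powerset.filter (fun T => T.Nonempty), (-1) ^ T.card *
      (d a q T * nn a q T (S \ T) + f2 a q T * mm a T (S \ T)) =
      -(if S.card = 2 then ∏ k ∈ S, q k else 0) := by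
  have h := congrArg (fun f => coeff f 1) (poly_rec a q hS)
  simp only [finsetSum_coeff, coeff_sgn, coeff_neg] at h
  simp only [mul_coeff_one, coeff_C_zero, coeff_X_pow, coeff_C_succ, mul_zero, zero_add] at h
  simp only [(W_coeff a q _ _).1, (W_coeff a q _ _).2] at h
  unfold d f2 mm nn
  rw [h]
  have := card_pos.2 hS
  by_cases h1 : S.card = 2
  · rw [if_pos h1, if_pos (by omega), one_mul]
  · rw [if_neg h1, if_neg (by omega), zero_mul]

lemma rec2 (e : J → ZMod 3) (S : Finset J) :
    ∑ T ∈ S.powerset.filter (fun T => T.Nonempty), (-1) ^ T.card * ((∑ l ∈ T, e l * q l) *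
      (d a q T * nn a q T (S \ T) + f2 a q T * mm a T (S \ T))) = 0 := by
  have h0 : ∀ j ∈ S, ∑ T ∈ S.powerset, (-1) ^ T.card *
      (if j ∈ T then (d a q T * nn a q T (S \ T) + f2 a q T * mm a T (S \ T)) else 0) = 0 := by
    intro j hj
    have h1 := (G_main (aC a) S.card S rfl (qC q) (tX q)).2 j hj
    have h2 := (G_main (aC a) S.card S rfl (qC q) (fun _ => C 0)).2 j hj
    rw [← h2] at h1
    have h3 : G (aC a) (qC q) (fun _ => C 0) S (E (some j)) =
        C (G a q (fun _ => 0) S (E (some j))) := by
      unfold G
      rw [map_sum]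
      refine sum_congr rfl fun T _ => ?_
      rw [map_mul, map_mul, ← Z_map, E_map, map_prod]
      simp only [map_pow, map_neg, map_one, map_add, map_sum]
      rfl
    rw [h3] at h1
    have h4 := congrArg (fun f => coeff f 1) h1
    simp only [coeff_C_succ] at h4
    refine Eq.trans ?_ h4
    have h5 : G (aC a) (qC q) (tX q) S (E (some j)) =
      ∑ T ∈ S.powerset, (-1) ^ T.card * (Qj a q T j * W a q T (S \ T)) := rfl
    rw [h5, finsetSum_coeff]
    refine sum_congr rfl fun T _ => ?_
    rw [coeff_sgn]
    congr 1
    by_cases hjT : j ∈ T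
    · rw [if_pos hjT, Q_p a q hjT, mul_coeff_one, (W_coeff a q _ _).1, (W_coeff a q _ _).2]
      rfl
    · rw [if_neg hjT]
      unfold Qj
      rw [Z_out _ _ _ hjT, zero_mul, coeff_zero]
  have h1 : ∑ j ∈ S, e j * q j * ∑ T ∈ S.powerset, (-1) ^ T.card *
      (if j ∈ T then (d a q T * nn a q T (S \ T) + f2 a q T * mm a T (S \ T)) else 0) = 0 :=
    sum_eq_zero fun j hj => by rw [h0 j hj, mul_zero]
  rw [← h1]
  simp only [mul_sum]
  rw [sum_comm, ← sum_filter_add_sum_filter_not S.powerset (fun T => T.Nonempty)]
  have h2 : ∑ T ∈ S.powerset.filter (fun T => ¬ T.Nonempty), ∑ j ∈ S, e j * q j * ((-1) ^ T.card *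
      (if j ∈ T then (d a q T * nn a q T (S \ T) + f2 a q T * mm a T (S \ T)) else 0)) = 0 := by
    refine sum_eq_zero fun T hT => sum_eq_zero fun j _ => ?_
    rw [mem_filter, not_nonempty_iff_eq_empty] at hT
    rw [hT.2, if_neg (notMem_empty j), mul_zero, mul_zero]
  rw [h2, add_zero]
  refine sum_congr rfl fun T hT => ?_
  rw [mem_filter, mem_powerset] at hT
  set V := d a q T * nn a q T (S \ T) + f2 a q T * mm a T (S \ T) with hV
  have h3 : ∑ j ∈ S, e j * q j * ((-1) ^ T.card * (if j ∈ T then V else 0)) =
      ∑ j ∈ T, e j * q j * ((-1) ^ T.card * V) := by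
    rw [← sum_subset hT.1 (f := fun j => e j * q j * ((-1) ^ T.card * (if j ∈ T then V else 0)))]
    · refine sum_congr rfl fun j hj => by rw [if_pos hj]
    · intro j _ hj
      rw [if_neg hj, mul_zero, mul_zero]
  rw [h3, ← sum_mul]
  ring

lemma nonempty_filter_sum (S : Finset J) (f : Finset J → ZMod 3) (h0 : f ∅ = 0) :
    ∑ T ∈ S.powerset.filter (fun T => T.Nonempty), f T = ∑ T ∈ S.powerset, f T := by
  rw [← sum_filter_add_sum_filter_not S.powerset (fun T => T.Nonempty)]
  symm
  rw [add_eq_left]
  refine sum_eq_zero fun T hT => ?_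
  rw [mem_filter, not_nonempty_iff_eq_empty] at hT
  rw [hT.2, h0]

omit [Fintype J] in
/-- the recursion has only one solution -/
lemma uniq1 (w : Finset J → Finset J → ZMod 3) (hw : ∀ T, w T ∅ = 1) (X : Finset J → ZMod 3)
    (D D' : Finset J → ZMod 3) (h0 : ∀ k, D {k} = D' {k})
    (h1 : ∀ S, 2 ≤ S.card → ∑ T ∈ S.powerset.filter (fun T => T.Nonempty),
      (-1) ^ T.card * (D T * w T (S \ T)) = X S)
    (h2 : ∀ S, 2 ≤ S.card → ∑ T ∈ S.powerset.filter (fun T => T.Nonempty),
      (-1) ^ T.card * (D' T * w T (S \ T)) = X S) :
    ∀ (n : ℕ) (S : Finset J), S.card = n → S.Nonempty → D S = D' S := by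
  intro n
  induction n using Nat.strong_induction_on with
  | _ n ih =>
    intro S hS hne
    by_cases hc : S.card = 1
    · obtain ⟨k, rfl⟩ := card_eq_one.1 hc
      exact h0 k
    · have hpos := card_pos.2 hne
      have e1 := h1 S (by omega)
      rw [← h2 S (by omega)] at e1
      have hS' : S ∈ S.powerset.filter (fun T => T.Nonempty) :=
        mem_filter.2 ⟨mem_powerset_self S, hne⟩
      rw [← sum_erase_add _ _ hS', ← sum_erase_add _ _ hS'] at e1
      have e2 : ∑ T ∈ (S.powerset.filter (fun T => T.Nonempty)).erase S,
          (-1) ^ T.card * (D T * w T (S \ T)) =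
          ∑ T ∈ (S.powerset.filter (fun T => T.Nonempty)).erase S,
            (-1) ^ T.card * (D' T * w T (S \ T)) := by
        refine sum_congr rfl fun T hT => ?_
        rw [mem_erase, mem_filter, mem_powerset] at hT
        rw [ih T.card (hS ▸ card_lt_card (hT.2.1.ssubset_of_ne hT.1)) T rfl hT.2.2]
      rw [e2] at e1
      have e3 := add_left_cancel e1
      rw [Finset.sdiff_self, hw, mul_one, mul_one] at e3
      have e4 : ((-1 : ZMod 3)) ^ S.card ≠ 0 := pow_ne_zero _ (by decide)
      exact mul_left_cancel₀ e4 e3

lemma d_one (k : J) : d a q {k} = q k := by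
  have h := rec0 a q (singleton_nonempty k)
  have e : ({k} : Finset J).powerset.filter (fun T => T.Nonempty) = {{k}} := by
    ext T
    simp only [mem_filter, mem_powerset, subset_singleton_iff, mem_singleton]
    constructor
    · rintro ⟨rfl | h, h'⟩
      · simp at h'
      · exact h
    · rintro rfl
      exact ⟨Or.inr rfl, singleton_nonempty k⟩
  rw [e, sum_singleton] at h
  simp [mm] at h
  exact h

lemma f2_one (k : J) : f2 a q {k} = 0 := by
  have h := rec1 a q (singleton_nonempty k)
  have e : ({k} : Finset J).powerset.filter (fun T => T.Nonempty) = {{k}} := by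
    ext T
    simp only [mem_filter, mem_powerset, subset_singleton_iff, mem_singleton]
    constructor
    · rintro ⟨rfl | h, h'⟩
      · simp at h'
      · exact h
    · rintro rfl
      exact ⟨Or.inr rfl, singleton_nonempty k⟩
  rw [e, sum_singleton] at h
  simp [mm, nn] at h
  exact h

lemma d_eq_D {T : Finset J} (hT : T.Nonempty) : d a q T = D a q T := by
  refine uniq1 (mm a) (fun T => by simp [mm]) (fun _ => 0) (d a q) (D a q)
    (fun k => by rw [d_one, D_one]) ?_ ?_ T.card T rfl hT
  · intro S hS
    rw [rec0 a q (card_pos.1 (by omega)), if_neg (by omega), neg_zero]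
  · intro S hS
    rw [nonempty_filter_sum]
    · exact D_rec a q S hS
    · simp [D]

lemma d_eq_Z {T : Finset J} {j : J} (hj : j ∈ T) :
    d a q T = Z a q (fun _ => 0) T (E (some j)) := by
  unfold d
  rw [← Q_p a q hj]
  unfold Qj
  have h := Z_map (constantCoeff (R := ZMod 3)) (aC a) (qC q) (tX q) T (E (some j))
  rw [E_map] at h
  rw [constantCoeff_apply] at h
  rw [← h]
  congr 1
  · funext i l
    simp [aC]
  · funext i
    simp [qC]
  · funext i
    simp [tX]

end poly

/-- if the weighted sum of the roots vanishes -/
lemma Z_zero {a : J → J → ZMod 3} {e b : J → ZMod 3} (he : ∀ j, e j ≠ 0)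
    (hs : ∀ l m, l ≠ m → e l * a l m = e m * a m l) {T : Finset J} {j : J} (hj : j ∈ T)
    (hb : ∑ k ∈ T, e k * b k = 0) : Z a b (fun _ => 0) T (E (some j)) = 0 := by
  unfold Z
  rw [← Matrix.exists_vecMul_eq_zero_iff]
  refine ⟨fun x => match x with
    | none => 0
    | some k => if k ∈ T then e k else ∑ m ∈ T, e m * a m k, ?_, ?_⟩
  · intro h
    have := congrFun h (some j)
    simp only [if_pos hj, Pi.zero_apply] at this
    exact he j this
  · funext y
    rw [Matrix.vecMul, dotProduct, Fintype.sum_option]
    simp only [zero_mul, zero_add, Pi.zero_apply]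
    rcases y with _ | l
    · rw [← sum_filter_add_sum_filter_not univ (fun k => k ∈ T)]
      have e1 : univ.filter (fun k => k ∈ T) = T := by ext; simp
      have e2 : ∑ k ∈ univ.filter (fun k => ¬ k ∈ T), (if k ∈ T then e k else ∑ m ∈ T, e m * a m k) *
          B a b (fun _ => 0) T (E (some j)) (some k) none = 0 := by
        refine sum_eq_zero fun k hk => ?_
        rw [mem_filter] at hk
        simp [B, hk.2]
      rw [e1, e2, add_zero]
      have e3 : ∑ k ∈ T, (if k ∈ T then e k else ∑ m ∈ T, e m * a m k) *
          B a b (fun _ => 0) T (E (some j)) (some k) none = -∑ k ∈ T, e k * b k := by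
        rw [← sum_neg_distrib]
        refine sum_congr rfl fun k hk => ?_
        simp [B, hk]
      rw [e3, hb, neg_zero]
    · rw [← sum_filter_add_sum_filter_not univ (fun k => k ∈ T)]
      have e1 : univ.filter (fun k => k ∈ T) = T := by ext; simp
      rw [e1]
      by_cases hl : l ∈ T
      · have e2 : ∑ k ∈ univ.filter (fun k => ¬ k ∈ T),
            (if k ∈ T then e k else ∑ m ∈ T, e m * a m k) *
            B a b (fun _ => 0) T (E (some j)) (some k) (some l) = 0 := by
          refine sum_eq_zero fun k hk => ?_
          rw [mem_filter] at hk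
          have hkl : l ≠ k := fun h => hk.2 (h ▸ hl)
          simp [B, hk.2, hkl]
        rw [e2, add_zero]
        have e3 : ∀ k ∈ T, (if k ∈ T then e k else ∑ m ∈ T, e m * a m k) *
            B a b (fun _ => 0) T (E (some j)) (some k) (some l) =
            e k * (if k = l then ∑ m ∈ T.erase k, a k m else -a k l) := by
          intro k hk
          simp [B, hk]
        rw [sum_congr rfl e3, ← add_sum_erase T _ hl, if_pos rfl]
        have e4 : ∑ k ∈ T.erase l, e k * (if k = l then ∑ m ∈ T.erase k, a k m else -a k l) =
            ∑ k ∈ T.erase l, -(e l * a l k) := by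
          refine sum_congr rfl fun k hk => ?_
          rw [if_neg (ne_of_mem_erase hk), hs l k (ne_of_mem_erase hk).symm]
          ring
        rw [e4, sum_neg_distrib, mul_sum]
        ring
      · have e2 : ∑ k ∈ univ.filter (fun k => ¬ k ∈ T),
            (if k ∈ T then e k else ∑ m ∈ T, e m * a m k) *
            B a b (fun _ => 0) T (E (some j)) (some k) (some l) = ∑ m ∈ T, e m * a m l := by
          rw [sum_eq_single l]
          · simp [B, hl]
          · intro k hk hkl
            rw [mem_filter] at hk
            have hkl' : l ≠ k := hkl.symm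
            simp [B, hk.2, hkl']
          · intro h
            exact absurd (mem_filter.2 ⟨mem_univ l, hl⟩) h
        rw [e2, ← sum_add_distrib]
        refine sum_eq_zero fun k hk => ?_
        have hkl : k ≠ l := fun h => hl (h ▸ hk)
        simp [B, hk, hkl]

lemma zmod3_cases (x : ZMod 3) : x = 0 ∨ x = 1 ∨ x = -1 := by
  revert x; decide

lemma zmod3_sq {x : ZMod 3} (hx : x ≠ 0) : x * x = 1 := by
  revert x; decide

/-- `b univ`, times the weight of the root `r`, is the bordered determinant. -/
theorem det_eq {J : Type} [Fintype J] [DecidableEq J] (c : J → J → ZMod 3)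
    (q y e : J → ZMod 3) (b : Finset J → ZMod 3)
    (hc : ∀ j k, j ≠ k → c j k = c k j) (he : ∀ j, e j ≠ 0) (hb1 : ∀ k, b {k} = y k)
    (hrec : ∀ S : Finset J, 2 ≤ S.card →
      ∑ T ∈ S.powerset.filter (fun T => T.Nonempty), (-1) ^ T.card * (b T *
          ∏ i ∈ S \ T, ∑ l ∈ T, e l * c l i) +
        ∑ T ∈ S.powerset.filter (fun T => T.Nonempty ∧ ∑ l ∈ T, e l * q l = -1), (-1) ^ T.card *
          (D (fun i l => e l * c l i) q T *
            ∑ k ∈ S \ T, q k * ∏ i ∈ (S \ T).erase k, ∑ l ∈ T, e l * c l i) =
        if S.card = 2 then ∏ k ∈ S, q k else 0)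
    (hneu : ∑ j, e j * q j = 0) (r : J) :
    e r * b univ = Z (fun i l => e l * c l i) q (fun k => e r * c r k) (univ.erase r)
      ((∑ k, e k * y k) • E none + fun x => match x with | none => 0 | some l => e l * q l) := by
  set a : J → J → ZMod 3 := fun i l => e l * c l i with ha
  have hs : ∀ l m, l ≠ m → e l * a l m = e m * a m l := by
    intro l m hlm
    simp only [ha]
    rw [hc m l hlm.symm]
    ring
  -- the closed form
  have hcl : b univ = D a y univ + ((∑ l, e l * q l) - 1) * f2 a q univ := by
    have hne : (univ : Finset J).Nonempty := ⟨r, mem_univ r⟩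
    refine uniq1 (mm a) (fun T => by simp [mm])
      (fun S => (if S.card = 2 then ∏ k ∈ S, q k else 0) -
        ∑ T ∈ S.powerset.filter (fun T => T.Nonempty), (-1) ^ T.card *
          (((∑ l ∈ T, e l * q l) - 1) * (d a q T * nn a q T (S \ T))))
      b (fun T => D a y T + ((∑ l ∈ T, e l * q l) - 1) * f2 a q T) ?_ ?_ ?_ _ univ rfl hne
    · intro k
      rw [hb1, D_one, f2_one, mul_zero, add_zero]
    · intro S hS
      rw [← hrec S hS, eq_sub_iff_add_eq]
      congr 1
      rw [← filter_filter]
      conv_rhs => rw [sum_filter]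
      refine sum_congr rfl fun T hT => ?_
      rw [mem_filter] at hT
      have hd := d_eq_D a q hT.2
      have hz : ∑ l ∈ T, e l * q l = 0 → d a q T = 0 := by
        intro h
        obtain ⟨j, hj⟩ := hT.2
        rw [d_eq_Z a q hj]
        exact Z_zero he hs hj h
      rcases zmod3_cases (∑ l ∈ T, e l * q l) with h | h | h
      · rw [hz h, h, if_neg (by decide)]
        ring
      · rw [h, if_neg (by decide)]
        ring
      · rw [h, if_pos rfl, ← hd]
        have : ((-1 : ZMod 3) - 1) = 1 := by decide
        rw [this, one_mul]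
        rfl
    · intro S hS
      have hSne : S.Nonempty := card_pos.1 (by omega)
      have r1 := rec1 a q hSne
      have r2 := rec2 a q e S
      have r3 : ∑ T ∈ S.powerset.filter (fun T => T.Nonempty), (-1) ^ T.card *
          (D a y T * mm a T (S \ T)) = 0 := by
        rw [nonempty_filter_sum]
        · exact D_rec a y S hS
        · simp [D]
      have r4 : ∑ T ∈ S.powerset.filter (fun T => T.Nonempty), (-1) ^ T.card *
          ((D a y T + ((∑ l ∈ T, e l * q l) - 1) * f2 a q T) * mm a T (S \ T)) =
          ∑ T ∈ S.powerset.filter (fun T => T.Nonempty), (-1) ^ T.card *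
            (D a y T * mm a T (S \ T)) +
          ∑ T ∈ S.powerset.filter (fun T => T.Nonempty), (-1) ^ T.card *
            ((∑ l ∈ T, e l * q l) * (d a q T * nn a q T (S \ T) + f2 a q T * mm a T (S \ T))) -
          ∑ T ∈ S.powerset.filter (fun T => T.Nonempty), (-1) ^ T.card *
            (d a q T * nn a q T (S \ T) + f2 a q T * mm a T (S \ T)) -
          ∑ T ∈ S.powerset.filter (fun T => T.Nonempty), (-1) ^ T.card *
            (((∑ l ∈ T, e l * q l) - 1) * (d a q T * nn a q T (S \ T))) := by
        rw [← sum_add_distrib, ← sum_sub_distrib, ← sum_sub_distrib]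
        refine sum_congr rfl fun T _ => ?_
        ring
      rw [r4, r1, r2, r3]
      ring
  rw [hneu] at hcl
  set T' : Finset J := univ.erase r with hT'
  have hrT : r ∉ T' := notMem_erase r univ
  have hins : insert r T' = univ := insert_erase (mem_univ r)
  set K : ZMod 3 := Z a q (fun k => a k r) T' (E none) with hK
  set Y : ZMod 3 := ∑ k, e k * y k with hY
  -- the first term
  have h1 : e r * D a y univ = Y * K := by
    have hlin : D a y univ = D a (fun k => y k - Y * e r * (Pi.single r 1 : J → ZMod 3) k) univ +
        Y * e r * D a (Pi.single r 1) univ := by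
      unfold D
      rw [mul_sum, ← sum_add_distrib]
      refine sum_congr rfl fun k _ => ?_
      ring
    have hz : D a (fun k => y k - Y * e r * (Pi.single r 1 : J → ZMod 3) k) univ = 0 := by
      rw [← d_eq_D a _ ⟨r, mem_univ r⟩, d_eq_Z a _ (mem_univ r)]
      refine Z_zero he hs (mem_univ r) ?_
      have : ∀ k, e k * (y k - Y * e r * (Pi.single r 1 : J → ZMod 3) k) =
          e k * y k - Y * e r * (e k * (Pi.single r 1 : J → ZMod 3) k) := fun k => by ring
      have hsg : ∑ k, e k * (Pi.single r 1 : J → ZMod 3) k = e r := by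
        rw [sum_eq_single r, Pi.single_eq_same, mul_one]
        · intro k _ hk
          rw [Pi.single_eq_of_ne hk, mul_zero]
        · simp
      simp only [this]
      rw [sum_sub_distrib, ← mul_sum, hsg, ← hY, mul_assoc, zmod3_sq (he r), mul_one, sub_self]
    have h2 : D a (Pi.single r 1) univ = K := by
      rw [← d_eq_D a _ ⟨r, mem_univ r⟩, d_eq_Z a _ (mem_univ r), ← hins, Z_rec _ _ _ hrT]
      rw [Pi.single_eq_same, one_mul, sum_eq_zero, add_zero, hK]
      · rw [Z_none a q (Pi.single r 1)]
        congr 1
        funext k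
        rw [zero_add]
      · intro k _
        have : Z a (Pi.single r 1) (fun k => 0 + a k r) T' (E (some k)) = 0 := by
          unfold Z
          refine Matrix.det_eq_zero_of_column_eq_zero none fun i => ?_
          rcases i with _ | l
          · simp [B, E]
          · by_cases hl : l ∈ T'
            · have hlr : l ≠ r := fun h => hrT (h ▸ hl)
              simp [B, hl, hlr]
            · simp [B, hl]
        rw [this, mul_zero]
    rw [hlin, hz, h2, zero_add]
    have := zmod3_sq (he r)
    linear_combination Y * K * this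
  -- the second term
  set ρ : Option J → ZMod 3 := fun x => match x with | none => 0 | some l => e l * q l with hρ
  have h2 : e r * f2 a q univ = -Z a q (fun k => a k r) T' ρ := by
    have h3 := Z_row (aC a) (qC q) (tX q) (fun k => C (e k)) r
      (fun l m hlm => by simp only [aC]; rw [← C_mul, ← C_mul, hs l m hlm])
      (by
        have : ∀ k, C (e k) * qC q k = C (e k * q k) := fun k => by simp [qC]
        simp only [this]
        rw [← map_sum, hneu, C_0])
    have h4 : (fun x => match x with | none => 0 | some l => C (e l) * tX q l :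
        Option J → (ZMod 3)[X]) = (X : (ZMod 3)[X]) • fun x => C (ρ x) := by
      funext x
      rcases x with _ | l
      · simp [hρ]
      · simp only [hρ, tX, Pi.smul_apply, smul_eq_mul, C_mul]
        ring
    rw [h4, Z_smul] at h3
    have h5 : Z (aC a) (qC q) (tX q) univ (E (some r)) = p a q univ := Q_p a q (mem_univ r)
    rw [h5] at h3
    have h6 := congrArg (fun f => coeff f 1) h3
    simp only [coeff_C_mul, coeff_neg] at h6
    simp only [mul_coeff_one, coeff_X_zero, zero_mul, coeff_X_one, one_mul, zero_add] at h6
    unfold f2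
    rw [h6]
    congr 1
    have h7 := Z_map (constantCoeff (R := ZMod 3)) (aC a) (qC q) (fun k => tX q k + aC a k r)
      (univ.erase r) (fun x => C (ρ x))
    rw [constantCoeff_apply] at h7
    rw [← h7, hT']
    congr 1
    · funext i l
      simp [aC]
    · funext i
      simp [qC]
    · funext i
      simp [tX, aC]
    · funext x
      simp
  have h3 : Z a q (fun k => a k r) T' (Y • E none + ρ) = Y * K + Z a q (fun k => a k r) T' ρ := by
    rw [Z_add, Z_smul]
  show e r * b univ = Z a q (fun k => a k r) T' (Y • E none + ρ)
  rw [h3, hcl, ← h1]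
  linear_combination -h2

/-- the kernel of the bordered matrix -/
theorem ker_iff {J : Type} [Fintype J] [DecidableEq J] (c : J → J → ZMod 3)
    (q y e : J → ZMod 3) (hc : ∀ j k, j ≠ k → c j k = c k j) (he : ∀ j, e j ≠ 0)
    (hneu : ∑ j, e j * q j = 0) (r : J) :
    Z (fun i l => e l * c l i) q (fun k => e r * c r k) (univ.erase r)
      ((∑ k, e k * y k) • E none + fun x => match x with | none => 0 | some l => e l * q l) ≠ 0 ↔
    (∀ (v : J → ZMod 3) (a : ZMod 3), (∀ j, ∑ k, e k * c j k * (v k - v j) + a * q j = 0) →
      ∑ k, e k * v k * q k + a * ∑ k, e k * y k = 0 → (∀ i j, v i = v j) ∧ a = 0) := by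
  set a : J → J → ZMod 3 := fun i l => e l * c l i with ha
  have hs : ∀ l m, l ≠ m → e l * a l m = e m * a m l := by
    intro l m hlm
    simp only [ha]
    rw [hc m l hlm.symm]
    ring
  set T' : Finset J := univ.erase r with hT'
  have hrT : r ∉ T' := notMem_erase r univ
  set Y : ZMod 3 := ∑ k, e k * y k with hY
  set ρ : Option J → ZMod 3 := fun x => match x with | none => 0 | some l => e l * q l with hρ
  have hac : ∀ (v : J → ZMod 3) (s : ZMod 3) (j : J),
      ∑ k, e k * c j k * (v k - v j) + s * q j = ∑ m, a j m * (v m - v j) + s * q j := by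
    intro v s j
    congr 1
    refine sum_congr rfl fun k _ => ?_
    by_cases hjk : j = k
    · subst hjk
      ring
    · simp only [ha]
      rw [hc j k hjk]
  -- the rows of the matrix
  have hrow : ∀ (v : Option J → ZMod 3), v (some r) = 0 → ∀ k, k ≠ r →
      (B a q (fun k => a k r) T' (Y • E none + ρ)).mulVec v (some k) =
        -(∑ m, a k m * (v (some m) - v (some k)) + v none * q k) := by
    intro v hv1 k hk
    have hkT : k ∈ T' := by simp [hT', hk]
    rw [Matrix.mulVec, dotProduct, Fintype.sum_option]
    simp only [B, hkT, if_true, ite_mul]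
    rw [← add_sum_erase univ _ (mem_univ k), if_pos rfl]
    have e1 : ∑ x ∈ univ.erase k, (if k = x then (a k r + ∑ m ∈ T'.erase k, a k m) * v (some x) else
        -a k x * v (some x)) = -∑ x ∈ univ.erase k, a k x * v (some x) := by
      rw [← sum_neg_distrib]
      refine sum_congr rfl fun x hx => ?_
      rw [if_neg (ne_of_mem_erase hx).symm]
      ring
    have e2 : a k r + ∑ m ∈ T'.erase k, a k m = ∑ m ∈ univ.erase k, a k m := by
      have h6 : univ.erase k = insert r (T'.erase k) := by
        ext x
        simp only [mem_erase, mem_univ, and_true, mem_insert, hT']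
        constructor
        · intro hx
          by_cases hxr : x = r
          · exact Or.inl hxr
          · exact Or.inr ⟨hx, hxr⟩
        · rintro (rfl | ⟨hx, -⟩)
          · exact fun h => hk h.symm
          · exact hx
      rw [h6, sum_insert (fun h => hrT (mem_of_mem_erase h))]
    rw [e1, e2]
    rw [← add_sum_erase univ (fun m => a k m * (v (some m) - v (some k))) (mem_univ k), sub_self,
      mul_zero, zero_add]
    have e3 : ∑ m ∈ univ.erase k, a k m * (v (some m) - v (some k)) =
        ∑ m ∈ univ.erase k, a k m * v (some m) - (∑ m ∈ univ.erase k, a k m) * v (some k) := by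
      rw [sum_mul, ← sum_sub_distrib]
      refine sum_congr rfl fun m _ => by ring
    rw [e3]
    ring
  have hrow1 : ∀ (v : Option J → ZMod 3),
      (B a q (fun k => a k r) T' (Y • E none + ρ)).mulVec v (some r) = v (some r) := by
    intro v
    rw [Matrix.mulVec, dotProduct, sum_eq_single (some r)]
    · simp [B, hrT]
    · intro x _ hx
      simp [B, hrT, hx]
    · simp
  have hrow2 : ∀ (v : Option J → ZMod 3),
      (B a q (fun k => a k r) T' (Y • E none + ρ)).mulVec v none =
        Y * v none + ∑ l, e l * q l * v (some l) := by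
    intro v
    rw [Matrix.mulVec, dotProduct, Fintype.sum_option]
    simp [B, E, hρ]
  have hzero : Z a q (fun k => a k r) T' (Y • E none + ρ) ≠ 0 ↔
      ∀ v : Option J → ZMod 3, (B a q (fun k => a k r) T' (Y • E none + ρ)).mulVec v = 0 → v = 0 := by
    unfold Z
    rw [Ne, ← Matrix.exists_mulVec_eq_zero_iff]
    push Not
    constructor
    · intro h v hv
      by_contra hv0
      exact h v hv0 hv
    · intro h v hv0 hv
      exact hv0 (h v hv)
  show Z a q (fun k => a k r) T' (Y • E none + ρ) ≠ 0 ↔ _
  rw [hzero]
  constructor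
  · intro h v s h1 h2
    have h3 := h (fun x => match x with | none => s | some k => v k - v r) (by
      funext x
      rcases x with _ | k
      · rw [hrow2]
        simp only [Pi.zero_apply]
        rw [← h2]
        have : ∀ l, e l * q l * (v l - v r) = e l * v l * q l - v r * (e l * q l) := fun l => by ring
        simp only [this]
        rw [sum_sub_distrib, ← mul_sum, hneu]
        ring
      · by_cases hk : k = r
        · subst hk
          rw [hrow1]
          simp
        · rw [hrow _ (by simp) k hk]
          simp only [Pi.zero_apply, neg_eq_zero]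
          have h4 := h1 k
          rw [hac] at h4
          rw [← h4]
          congr 1
          refine sum_congr rfl fun m _ => ?_
          ring)
    have h4 : ∀ k, v k = v r := fun k => by
      have := congrFun h3 (some k)
      simp only [Pi.zero_apply] at this
      exact sub_eq_zero.1 this
    refine ⟨fun i j => by rw [h4 i, h4 j], ?_⟩
    exact congrFun h3 none
  · intro hker v hv
    have hv1 : v (some r) = 0 := by
      have := congrFun hv (some r)
      rwa [hrow1] at this
    have hv2 : Y * v none + ∑ l, e l * q l * v (some l) = 0 := by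
      have := congrFun hv none
      rwa [hrow2] at this
    have hv3 : ∀ k, k ≠ r → ∑ m, a k m * (v (some m) - v (some k)) + v none * q k = 0 := by
      intro k hk
      have := congrFun hv (some k)
      rw [hrow v hv1 k hk] at this
      exact neg_eq_zero.1 this
    have hv4 : ∑ m, a r m * (v (some m) - v (some r)) + v none * q r = 0 := by
      have hsum : ∑ k, e k * (∑ m, a k m * (v (some m) - v (some k)) + v none * q k) = 0 := by
        have e1 : ∀ k, e k * (∑ m, a k m * (v (some m) - v (some k)) + v none * q k) =
            ∑ m, e k * a k m * (v (some m) - v (some k)) + v none * (e k * q k) := by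
          intro k
          rw [mul_add, mul_sum]
          congr 1
          · refine sum_congr rfl fun m _ => by ring
          · ring
        simp only [e1]
        rw [sum_add_distrib, ← mul_sum, hneu, mul_zero, add_zero]
        have e2 : ∑ k, ∑ m, e k * a k m * (v (some m) - v (some k)) =
            -∑ k, ∑ m, e k * a k m * (v (some m) - v (some k)) := by
          conv_lhs => rw [sum_comm]
          rw [← sum_neg_distrib]
          refine sum_congr rfl fun k _ => ?_
          rw [← sum_neg_distrib]
          refine sum_congr rfl fun m _ => ?_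
          by_cases hkm : k = m
          · subst hkm; ring
          · rw [hs m k (Ne.symm hkm)]
            ring
        have e3 : ∀ x : ZMod 3, x = -x → x = 0 := by decide
        exact e3 _ e2
      rw [sum_eq_single r] at hsum
      · exact (mul_eq_zero.1 hsum).resolve_left (he r)
      · intro k _ hk
        rw [hv3 k hk, mul_zero]
      · simp
    have hv5 : ∀ k, ∑ m, a k m * (v (some m) - v (some k)) + v none * q k = 0 := by
      intro k
      by_cases hk : k = r
      · subst hk; exact hv4
      · exact hv3 k hk
    obtain ⟨hfin1, hfin2⟩ := hker (fun k => v (some k)) (v none) (by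
      intro j
      rw [hac (fun k => v (some k)) (v none) j]
      exact hv5 j) (by
      rw [← hv2, add_comm]
      congr 1
      · ring
      · refine sum_congr rfl fun k _ => by ring)
    funext x
    rcases x with _ | k
    · exact hfin2
    · have := hfin1 k r
      rw [this, hv1]
      rfl

/-- the two directions: `b univ` is not zero exactly if the kernel consists of the constants -/
theorem cmb_iff {J : Type} [Fintype J] [DecidableEq J] [Nonempty J] (c : J → J → ZMod 3)
    (q y e : J → ZMod 3) (b : Finset J → ZMod 3)
    (hc : ∀ j k, j ≠ k → c j k = c k j) (he : ∀ j, e j ≠ 0) (hb1 : ∀ k, b {k} = y k)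
    (hrec : ∀ S : Finset J, 2 ≤ S.card →
      ∑ T ∈ S.powerset.filter (fun T => T.Nonempty), (-1) ^ T.card * (b T *
          ∏ i ∈ S \ T, ∑ l ∈ T, e l * c l i) +
        ∑ T ∈ S.powerset.filter (fun T => T.Nonempty ∧ ∑ l ∈ T, e l * q l = -1), (-1) ^ T.card *
          (D (fun i l => e l * c l i) q T *
            ∑ k ∈ S \ T, q k * ∏ i ∈ (S \ T).erase k, ∑ l ∈ T, e l * c l i) =
        if S.card = 2 then ∏ k ∈ S, q k else 0)
    (hneu : ∑ j, e j * q j = 0) :
    b univ ≠ 0 ↔
    (∀ (v : J → ZMod 3) (a : ZMod 3), (∀ j, ∑ k, e k * c j k * (v k - v j) + a * q j = 0) →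
      ∑ k, e k * v k * q k + a * ∑ k, e k * y k = 0 → (∀ i j, v i = v j) ∧ a = 0) := by
  obtain ⟨r⟩ := ‹Nonempty J›
  rw [← ker_iff c q y e hc he hneu r, ← det_eq c q y e b hc he hb1 hrec hneu r, mul_ne_zero_iff]
  exact ⟨fun h => ⟨he r, h⟩, fun h => h.2⟩

/-- **Module P1.** -/
theorem cmb : Pool.Agent.D0H69.L0.S_CMB := by
  intro J _ _ c q y e b hc he hb1 hrec hneu hker
  have hne : Nonempty J := by
    by_contra hcon
    have hE : IsEmpty J := not_nonempty_iff.1 hcon
    have h1 := (hker (fun _ => 0) 1 (fun j => hE.elim j) (by simp)).2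
    exact absurd h1 (by decide)
  exact (cmb_iff c q y e b hc he hb1 hrec hneu).2 hker

end Pool.Agent.D0H2.L0
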