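import Pool.Agent.D0H69.L0.StmA
import Pool.Agent.W245.EB.CMz2
import Pool.Agent.H667R3.W4

/-!
# Project L0, module P2: the distribution relations of `℘` and `℘ ^ 2`
-/

set_option autoImplicit false

open Filter
open scoped Topology PeriodPair

namespace Pool.Agent.D0H2.L0

open H667R3 Pool.Agent.W192.HK Pool.Agent.TH936.CM Pool.Agent.TH936.PU
open Pool.Agent.W245.EB hiding Sm
open Pool.Agent.Y715.Dist Pool.Agent.Y696

theorem hasDerivAt_wp2 (L : PeriodPair) {z : ℂ} (hz : z ∉ L.lattice) :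
    HasDerivAt ℘'[L] (6 * ℘[L] z ^ 2 - L.g₂ / 2) z := by
  have hd : DifferentiableAt ℂ ℘'[L] z :=
    (L.differentiableOn_derivWeierstrassP z hz).differentiableAt ((isOpen_compl L).mem_nhds hz)
  have han : AnalyticAt ℂ ℘'[L] z := L.analyticOnNhd_derivWeierstrassP z hz
  have han2 : AnalyticAt ℂ ℘[L] z := L.analyticOnNhd_weierstrassP z hz
  have hc1 : ContinuousAt (deriv ℘'[L]) z := han.deriv.continuousAt
  have hc2 : ContinuousAt (fun u => 6 * ℘[L] u ^ 2 - L.g₂ / 2) z :=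
    ((han2.pow 2).continuousAt.const_mul 6).sub continuousAt_const
  have hev : ∀ᶠ u in 𝓝[≠] z, deriv ℘'[L] u = 6 * ℘[L] u ^ 2 - L.g₂ / 2 := by
    have h1 : ∀ᶠ u in 𝓝[≠] z, 2 * u ∉ L.lattice := by
      have h2 : ((L.lattice : Set ℂ) \ {2 * z})ᶜ ∈ 𝓝 (2 * z) :=
        L.compl_lattice_sdiff_singleton_mem_nhds (2 * z)
      have h3 : Tendsto (fun u : ℂ => 2 * u) (𝓝 z) (𝓝 (2 * z)) :=
        (by fun_prop : Continuous fun u : ℂ => 2 * u).tendsto z
      have h4 := h3.eventually h2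
      filter_upwards [h4.filter_mono nhdsWithin_le_nhds, self_mem_nhdsWithin] with u hu hu'
      intro h5
      apply hu
      refine ⟨h5, ?_⟩
      intro h6
      have h7 : 2 * u = 2 * z := h6
      exact hu' (mul_left_cancel₀ two_ne_zero h7)
    filter_upwards [h1] with u hu
    exact (hasDerivAt_wp' L hu).deriv
  have h5 : Tendsto (deriv ℘'[L]) (𝓝[≠] z) (𝓝 (deriv ℘'[L] z)) :=
    hc1.tendsto.mono_left nhdsWithin_le_nhds
  have h6 : Tendsto (deriv ℘'[L]) (𝓝[≠] z) (𝓝 (6 * ℘[L] z ^ 2 - L.g₂ / 2)) :=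
    (hc2.tendsto.mono_left nhdsWithin_le_nhds).congr' (hev.mono fun u hu => hu.symm)
  rw [← tendsto_nhds_unique h5 h6]
  exact hd.hasDerivAt

variable {L : PeriodPair} {Ω : ℂ} {a : eis}

/-- the sum over the kernel of the multiplication by `a` as a sum over the classes modulo `a` -/
lemma ker_Sm (hL : IsLat L eis Ω) (ha : a ≠ 0) (hα : (a : ℂ) ≠ 0)
    (hm : ∀ w ∈ L.lattice, (a : ℂ) * w ∈ L.lattice) (F : ℂ → ℂ)
    (hF : ∀ u, ∀ w ∈ L.lattice, F (u + w) = F u) (z : ℂ) :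
    ∑ x ∈ ker hα hm, F (z - x.out) = Sm a (fun t => F (z + Ω * t / a)) := by
  classical
  have hfin : Finite (eis ⧸ (sp a : Ideal eis)) := finite_q ha
  have : Fintype (eis ⧸ (sp a : Ideal eis)) := Fintype.ofFinite _
  rw [Sm_eq]
  symm
  refine Finset.sum_bij (fun (x : eis ⧸ (sp a : Ideal eis)) _ =>
    (QuotientAddGroup.mk (-(Ω * (x.out : ℂ) / a)) : Qt L)) ?_ ?_ ?_ ?_
  · intro x _
    rw [mk_mem_ker]
    have e : (a : ℂ) * -(Ω * (x.out : ℂ) / a) = -(Ω * x.out) := by field_simp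
    rw [e]
    exact neg_mem (hL.mem_mul _)
  · intro x _ y _ h
    rw [mk_eq_iff] at h
    refine mk_eq ?_
    have h2 := (div_mem_iff hL ha (x.out - y.out)).1 (by
      have := neg_mem h
      convert this using 1
      push_cast
      ring)
    exact h2
  · intro q hq
    rw [Pool.Agent.W245.EB.mem_ker] at hq
    obtain ⟨r, hr⟩ := (hL.mem _).1 hq
    refine ⟨Ideal.Quotient.mk _ (-r), Finset.mem_univ _, ?_⟩
    conv_rhs => rw [← QuotientAddGroup.out_eq' q]
    rw [mk_eq_iff]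
    have h1 := out_mk (sp a) (-r)
    have h2 := (div_mem_iff hL ha _).2 h1
    convert h2 using 1
    have h3 : q.out = Ω * r / a := by
      rw [← hr]
      field_simp
    rw [h3]
    push_cast
    ring
  · intro x _
    have h1 := out_sub_mem (L := L) (-(Ω * (x.out : ℂ) / a))
    have e : z + Ω * (x.out : ℂ) / a = (z - (QuotientAddGroup.mk (-(Ω * (x.out : ℂ) / a)) : Qt L).out) +
        ((QuotientAddGroup.mk (-(Ω * (x.out : ℂ) / a)) : Qt L).out - -(Ω * (x.out : ℂ) / a)) := by ring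
    rw [e, hF _ _ h1]

/-- multiplication by a unit permutes the residue classes -/
lemma Sm_unit (ha : a ≠ 0) {u : eis} (hu : IsUnit u) (G : eis → ℂ)
    (hG : ∀ x y : eis, x - y ∈ (sp a : Ideal eis) → G x = G y) :
    Sm a (fun t => G (u * t)) = Sm a G := by
  classical
  have hfin : Finite (eis ⧸ (sp a : Ideal eis)) := finite_q ha
  have : Fintype (eis ⧸ (sp a : Ideal eis)) := Fintype.ofFinite _
  rw [Sm_eq, Sm_eq]
  have hb : Function.Bijective (fun y : eis ⧸ (sp a : Ideal eis) =>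
      Ideal.Quotient.mk (sp a : Ideal eis) (u * y.out)) := by
    have e1 : (fun y : eis ⧸ (sp a : Ideal eis) => Ideal.Quotient.mk (sp a : Ideal eis) (u * y.out)) =
        fun y => Ideal.Quotient.mk (sp a : Ideal eis) u * y := by
      funext y
      rw [map_mul, Ideal.Quotient.mk_out]
    rw [e1]
    obtain ⟨v, hv⟩ := hu.exists_left_inv
    have h1 : Ideal.Quotient.mk (sp a : Ideal eis) v * Ideal.Quotient.mk (sp a : Ideal eis) u = 1 := by
      rw [← map_mul, hv, map_one]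
    refine Function.bijective_iff_has_inverse.2
      ⟨fun y => Ideal.Quotient.mk (sp a : Ideal eis) v * y, fun y => ?_, fun y => ?_⟩
    · show Ideal.Quotient.mk (sp a : Ideal eis) v * (Ideal.Quotient.mk (sp a : Ideal eis) u * y) = y
      rw [← mul_assoc, h1, one_mul]
    · show Ideal.Quotient.mk (sp a : Ideal eis) u * (Ideal.Quotient.mk (sp a : Ideal eis) v * y) = y
      rw [← mul_assoc, mul_comm (Ideal.Quotient.mk (sp a : Ideal eis) u), h1, one_mul]
  exact (sum_rep _ hb G hG).symm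

/-- the terms of the sums are periodic -/
lemma per_of (hL : IsLat L eis Ω) (ha : a ≠ 0) {F : ℂ → ℂ}
    (hF : ∀ u, ∀ w ∈ L.lattice, F (u + w) = F u) (z : ℂ) (x y : eis)
    (h : x - y ∈ (sp a : Ideal eis)) : F (z + Ω * x / a) = F (z + Ω * y / a) := by
  have h1 := (div_mem_iff hL ha _).2 h
  have e : z + Ω * (x : ℂ) / a = (z + Ω * (y : ℂ) / a) + Ω * ((x - y : eis) : ℂ) / a := by
    push_cast
    ring
  rw [e, hF _ _ h1]

lemma Sm_om (hL : IsLat L eis Ω) (ha : a ≠ 0) {F : ℂ → ℂ}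
    (hF : ∀ u, ∀ w ∈ L.lattice, F (u + w) = F u) {k : ℂ} (hk : ∀ z, F (om * z) = k * F z) (z : ℂ) :
    Sm a (fun t => F (om * z + Ω * t / a)) = k * Sm a (fun t => F (z + Ω * t / a)) := by
  rw [← Sm_unit ha omr_unit (fun t => F (om * z + Ω * t / a)) (per_of hL ha hF _), ← Sm_mul_left]
  unfold Sm
  refine Finset.sum_congr rfl fun t _ => ?_
  show F (om * z + Ω * ((omr * t : eis) : ℂ) / a) = k * F (z + Ω * (t : ℂ) / a)
  rw [← hk]
  congr 1
  push_cast
  rw [omr_coe]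
  ring

/-- the sum over all the classes vanishes at the lattice points -/
lemma Sm_zero (hL : IsLat L eis Ω) (ha : a ≠ 0) {F : ℂ → ℂ}
    (hF : ∀ u, ∀ w ∈ L.lattice, F (u + w) = F u) {k : ℂ} (hk : ∀ z, F (om * z) = k * F z)
    (hk1 : k ≠ 1) {z : ℂ} (hz : (a : ℂ) * z ∈ L.lattice) :
    Sm a (fun t => F (z + Ω * t / a)) = 0 := by
  have ha0 : (a : ℂ) ≠ 0 := coe_ne ha
  obtain ⟨s, hs⟩ := (hL.mem _).1 hz
  have e : z = Ω * s / a := by
    rw [← hs]
    field_simp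
  have h0 : Sm a (fun t => F (z + Ω * t / a)) = Sm a (fun t => F (0 + Ω * t / a)) := by
    rw [← Sm_shift (finite_q ha) s (F := fun t => F (0 + Ω * t / a)) (per_of hL ha hF 0)]
    unfold Sm
    refine Finset.sum_congr rfl fun t _ => ?_
    show F (z + Ω * (t : ℂ) / a) = F (0 + Ω * ((s + t : eis) : ℂ) / a)
    congr 1
    rw [e]
    push_cast
    ring
  rw [h0]
  have h1 := Sm_om hL ha hF hk 0
  rw [mul_zero] at h1
  have h2 : (1 - k) * Sm a (fun t => F (0 + Ω * t / a)) = 0 := by linear_combination h1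
  exact (mul_eq_zero.1 h2).resolve_left (sub_ne_zero.2 (Ne.symm hk1))

lemma wp_om (hL : IsLat L eis Ω) (z : ℂ) : ℘[L] (om * z) = om * ℘[L] z := by
  have h := wp_unit hL omr_unit z
  rw [omr_coe] at h
  rw [h]
  have h1 : (om ^ 2)⁻¹ = om := by
    apply inv_eq_of_mul_eq_one_right
    linear_combination om_cube
  rw [h1]

lemma om_ne_one : om ≠ 1 := by
  intro h
  have := om_im
  rw [h] at this
  simp at this

lemma om_sq_ne_one : om ^ 2 ≠ 1 := by
  intro h
  have h1 : om ^ 3 = om := by rw [pow_succ, h, one_mul]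
  rw [om_cube] at h1
  exact om_ne_one h1.symm

lemma wp_per (L : PeriodPair) (u w : ℂ) (hw : w ∈ L.lattice) : ℘[L] (u + w) = ℘[L] u :=
  L.weierstrassP_add_coe u ⟨w, hw⟩

lemma notMem_add (hL : IsLat L eis Ω) (ha : a ≠ 0) {z : ℂ} (hz : (a : ℂ) * z ∉ L.lattice) (t : eis) :
    z + Ω * t / a ∉ L.lattice := by
  have ha0 : (a : ℂ) ≠ 0 := coe_ne ha
  intro h
  apply hz
  have h1 := hL.mul a _ h
  have e : (a : ℂ) * (z + Ω * t / a) = a * z + Ω * t := by field_simp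
  rw [e] at h1
  have h2 := sub_mem h1 (hL.mem_mul t)
  rwa [add_sub_cancel_right] at h2

/-- the relation for `℘` outside of the lattice -/
lemma wpd1 (hL : IsLat L eis Ω) (ha : a ≠ 0) {z : ℂ} (hz : (a : ℂ) * z ∉ L.lattice) :
    Sm a (fun t => ℘[L] (z + Ω * t / a)) = (a : ℂ) ^ 2 * ℘[L] (a * z) := by
  have ha0 : (a : ℂ) ≠ 0 := coe_ne ha
  have hm : ∀ w ∈ L.lattice, (a : ℂ) * w ∈ L.lattice := fun w hw => hL.mul a w hw
  have hz' : (a : ℂ) * (om * z) ∉ L.lattice := by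
    have e : (a : ℂ) * (om * z) = (omr : ℂ) * (a * z) := by
      rw [omr_coe]
      ring
    rw [e, lat_unit hL omr_unit]
    exact hz
  have h1 := wp_mul_const ha0 hm z (om * z) hz hz'
  rw [ker_Sm hL ha ha0 hm _ (wp_per L), ker_Sm hL ha ha0 hm _ (wp_per L),
    Sm_om hL ha (wp_per L) (wp_om hL)] at h1
  have e : (a : ℂ) * (om * z) = om * (a * z) := by ring
  rw [e, wp_om hL] at h1
  have h2 : (1 - om) * ((a : ℂ) ^ 2 * ℘[L] (a * z) - Sm a (fun t => ℘[L] (z + Ω * t / a))) = 0 := by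
    linear_combination h1
  have h3 := (mul_eq_zero.1 h2).resolve_left (sub_ne_zero.2 (Ne.symm om_ne_one))
  linear_combination -h3

lemma isOpen_mul (L : PeriodPair) (b : ℂ) : IsOpen {z : ℂ | b * z ∉ L.lattice} :=
  (isOpen_compl L).preimage (by fun_prop : Continuous fun z : ℂ => b * z)

lemma wpd2 (hL : IsLat L eis Ω) (ha : a ≠ 0) {z : ℂ} (hz : (a : ℂ) * z ∉ L.lattice) :
    Sm a (fun t => ℘'[L] (z + Ω * t / a)) = (a : ℂ) ^ 3 * ℘'[L] (a * z) := by
  have d1 : HasDerivAt (fun z => (a : ℂ) ^ 2 * ℘[L] (a * z)) ((a : ℂ) ^ 2 * (℘'[L] (a * z) * a)) z := by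
    have h0 : HasDerivAt (fun x : ℂ => (a : ℂ) * x) a z := by
      simpa using (hasDerivAt_id z).const_mul (a : ℂ)
    exact ((hasDerivAt_weierstrassP L hz).comp z h0).const_mul ((a : ℂ) ^ 2)
  have d2 : HasDerivAt (fun z => Sm a (fun t => ℘[L] (z + Ω * t / a)))
      (Sm a (fun t => ℘'[L] (z + Ω * t / a))) z := by
    unfold Sm
    apply HasDerivAt.fun_sum
    intro t _
    exact (hasDerivAt_weierstrassP L (notMem_add hL ha hz t)).comp_add_const z _
  have hev : (fun z => (a : ℂ) ^ 2 * ℘[L] (a * z)) =ᶠ[𝓝 z]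
      (fun z => Sm a (fun t => ℘[L] (z + Ω * t / a))) := by
    filter_upwards [(isOpen_mul L a).mem_nhds hz] with w hw
    exact (wpd1 hL ha hw).symm
  have h := d1.unique (d2.congr_of_eventuallyEq hev)
  rw [← h]
  ring

lemma wpd3 (hL : IsLat L eis Ω) (ha : a ≠ 0) {z : ℂ} (hz : (a : ℂ) * z ∉ L.lattice) :
    Sm a (fun t => 6 * ℘[L] (z + Ω * t / a) ^ 2 - L.g₂ / 2) =
      (a : ℂ) ^ 4 * (6 * ℘[L] (a * z) ^ 2 - L.g₂ / 2) := by
  have d1 : HasDerivAt (fun z => (a : ℂ) ^ 3 * ℘'[L] (a * z))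
      ((a : ℂ) ^ 3 * ((6 * ℘[L] (a * z) ^ 2 - L.g₂ / 2) * a)) z := by
    have h0 : HasDerivAt (fun x : ℂ => (a : ℂ) * x) a z := by
      simpa using (hasDerivAt_id z).const_mul (a : ℂ)
    exact ((hasDerivAt_wp2 L hz).comp z h0).const_mul ((a : ℂ) ^ 3)
  have d2 : HasDerivAt (fun z => Sm a (fun t => ℘'[L] (z + Ω * t / a)))
      (Sm a (fun t => 6 * ℘[L] (z + Ω * t / a) ^ 2 - L.g₂ / 2)) z := by
    unfold Sm
    apply HasDerivAt.fun_sum
    intro t _
    exact (hasDerivAt_wp2 L (notMem_add hL ha hz t)).comp_add_const z _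
  have hev : (fun z => (a : ℂ) ^ 3 * ℘'[L] (a * z)) =ᶠ[𝓝 z]
      (fun z => Sm a (fun t => ℘'[L] (z + Ω * t / a))) := by
    filter_upwards [(isOpen_mul L a).mem_nhds hz] with w hw
    exact (wpd2 hL ha hw).symm
  have h := d1.unique (d2.congr_of_eventuallyEq hev)
  rw [← h]
  ring

/-- **Module P2.** -/
theorem wpd : Pool.Agent.D0H69.L0.S_WPD := by
  intro L Ω hC a ha z
  have hL := hC.lat
  have ha0 : (a : ℂ) ≠ 0 := coe_ne ha
  have hwz : ∀ x : ℂ, Pool.Agent.D0H69.L0.wz L x = ℘[L] x := by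
    intro x
    unfold Pool.Agent.D0H69.L0.wz
    split_ifs with h
    · exact (L.weierstrassP_coe ⟨x, h⟩).symm
    · rfl
  simp only [hwz]
  by_cases hz : (a : ℂ) * z ∈ L.lattice
  · have h0 : ℘[L] (a * z) = 0 := L.weierstrassP_coe ⟨_, hz⟩
    rw [h0, Sm_zero hL ha (wp_per L) (wp_om hL) om_ne_one hz]
    have h1 := Sm_zero hL ha (F := fun x => ℘[L] x ^ 2) (k := om ^ 2)
      (fun u w hw => by show ℘[L] (u + w) ^ 2 = _; rw [wp_per L u w hw])
      (fun x => by show ℘[L] (om * x) ^ 2 = _; rw [wp_om hL]; ring) om_sq_ne_one hz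
    refine ⟨by ring, ?_⟩
    rw [h1]
    ring
  · refine ⟨wpd1 hL ha hz, ?_⟩
    have h1 := wpd3 hL ha hz
    rw [hC.g2] at h1
    simp only [zero_div, sub_zero] at h1
    rw [Sm_mul_left] at h1
    have h6 : (6 : ℂ) ≠ 0 := by norm_num
    apply mul_left_cancel₀ h6
    rw [h1]
    ring

end Pool.Agent.D0H2.L0
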